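import Pool.Agent.Helper80.EC_F.Goals2
import Pool.Agent.Helper86.EC_F.SUMT

/-!
# Packet NSG of MP_ecc237_nt, Part F: the functions `n1` and `σ`.
-/

set_option autoImplicit false

open MeasureTheory Filter Topology Set

namespace EC237.PF.PkNSG

/-- general Lambert sum -/
noncomputable def SS (c : ℕ × ℕ → ℝ) (y : ℝ) : ℝ := ∑' p, c p * QQ y p

lemma summable_maj (a : ℝ) (ha : 0 < a) : Summable (fun p : ℕ × ℕ => 2 * ((p.2:ℝ) + 1) ^ 2 *
    Real.exp (-(a * (((p.1:ℝ) + 1) * ((p.2:ℝ) + 1))))) := by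
  refine PkSUMT.summable_of_bound _ 2 a ha ?_
  intro p
  obtain ⟨hM, hN⟩ := PkSUMT.one_le_X p
  set M : ℝ := (p.1:ℝ) + 1 with hMd
  set N : ℝ := (p.2:ℝ) + 1 with hNd
  rw [abs_of_pos (by positivity), mul_assoc]
  refine mul_le_mul_of_nonneg_left ?_ (by norm_num)
  refine mul_le_mul_of_nonneg_right ?_ (Real.exp_pos _).le
  have hMN : 1 ≤ M * N := by nlinarith
  calc N ^ 2 ≤ (M * N) ^ 2 := by
        apply pow_le_pow_left₀ (by linarith)
        exact le_mul_of_one_le_left (by linarith) hM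
    _ ≤ (M * N) ^ 6 := pow_le_pow_right₀ hMN (by norm_num)

lemma QQ_le (y y0 : ℝ) (hy0 : 0 < y0) (hy : y0 ≤ y) (p : ℕ × ℕ) :
    QQ y p ≤ Real.exp (-(Real.pi / 2 * y)) *
      Real.exp (-(Real.pi / 2 * y0 * (((p.1:ℝ) + 1) * ((p.2:ℝ) + 1)))) := by
  obtain ⟨hM, hN⟩ := PkSUMT.one_le_X p
  unfold QQ
  rw [← Real.exp_add]
  apply Real.exp_le_exp.mpr
  set M : ℝ := (p.1:ℝ) + 1 with hMd
  set N : ℝ := (p.2:ℝ) + 1 with hNd
  have hMN : 1 ≤ M * N := by nlinarith
  have hpi := Real.pi_pos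
  have hyp : 0 < y := by linarith
  have h1 : Real.pi / 2 * y ≤ Real.pi / 2 * y * (M * N) :=
    le_mul_of_one_le_right (by positivity) hMN
  have h2 : Real.pi / 2 * y0 * (M * N) ≤ Real.pi / 2 * y * (M * N) := by gcongr
  have e : Real.pi * M * N * y = Real.pi / 2 * y * (M * N) + Real.pi / 2 * y * (M * N) := by ring
  rw [e]
  linarith

lemma QQ_pos (y : ℝ) (p : ℕ × ℕ) : 0 < QQ y p := Real.exp_pos _

lemma term_le (c : ℕ × ℕ → ℝ) (hc : ∀ p, |c p| ≤ 2 * ((p.2:ℝ) + 1) ^ 2) (y y0 : ℝ)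
    (hy0 : 0 < y0) (hy : y0 ≤ y) (p : ℕ × ℕ) :
    ‖c p * QQ y p‖ ≤ Real.exp (-(Real.pi / 2 * y)) * (2 * ((p.2:ℝ) + 1) ^ 2 *
      Real.exp (-(Real.pi / 2 * y0 * (((p.1:ℝ) + 1) * ((p.2:ℝ) + 1))))) := by
  rw [Real.norm_eq_abs, abs_mul, abs_of_pos (QQ_pos y p)]
  calc |c p| * QQ y p ≤ (2 * ((p.2:ℝ) + 1) ^ 2) * (Real.exp (-(Real.pi / 2 * y)) *
      Real.exp (-(Real.pi / 2 * y0 * (((p.1:ℝ) + 1) * ((p.2:ℝ) + 1))))) := by
        have := QQ_le y y0 hy0 hy p
        have := hc p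
        have := (QQ_pos y p).le
        gcongr
    _ = _ := by ring

/-- the constant -/
noncomputable def KK (y0 : ℝ) : ℝ := ∑' p : ℕ × ℕ, 2 * ((p.2:ℝ) + 1) ^ 2 *
    Real.exp (-(Real.pi / 2 * y0 * (((p.1:ℝ) + 1) * ((p.2:ℝ) + 1))))

lemma SS_bound (c : ℕ × ℕ → ℝ) (hc : ∀ p, |c p| ≤ 2 * ((p.2:ℝ) + 1) ^ 2) (y y0 : ℝ)
    (hy0 : 0 < y0) (hy : y0 ≤ y) : |SS c y| ≤ Real.exp (-(Real.pi / 2 * y)) * KK y0 := by
  have hs := summable_maj (Real.pi / 2 * y0) (by positivity)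
  have h := tsum_of_norm_bounded (hs.hasSum.mul_left (Real.exp (-(Real.pi / 2 * y))))
    (term_le c hc y y0 hy0 hy)
  rw [Real.norm_eq_abs] at h
  exact h

lemma KK_nonneg (y0 : ℝ) : 0 ≤ KK y0 := tsum_nonneg (fun p => by positivity)

lemma SS_cont (c : ℕ × ℕ → ℝ) (hc : ∀ p, |c p| ≤ 2 * ((p.2:ℝ) + 1) ^ 2) :
    ContinuousOn (SS c) (Ioi 0) := by
  intro y hy
  have hy' : 0 < y := hy
  have h : ContinuousOn (SS c) (Ioi (y / 2)) := by
    have hs := summable_maj (Real.pi / 2 * (y / 2)) (by positivity)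
    refine continuousOn_tsum (u := fun p : ℕ × ℕ => 2 * ((p.2:ℝ) + 1) ^ 2 *
      Real.exp (-(Real.pi / 2 * (y / 2) * (((p.1:ℝ) + 1) * ((p.2:ℝ) + 1))))) ?_ hs ?_
    · intro p
      unfold QQ
      fun_prop
    · intro p x hx
      have hx' : y / 2 ≤ x := le_of_lt hx
      refine (term_le c hc x (y / 2) (by positivity) hx' p).trans ?_
      have h1 : Real.exp (-(Real.pi / 2 * x)) ≤ 1 := by
        rw [Real.exp_le_one_iff]
        have : 0 < x := by linarith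
        have := Real.pi_pos
        nlinarith [mul_pos this ‹0 < x›]
      refine mul_le_of_le_one_left (by positivity) h1
  have h2 := h.continuousAt (Ioi_mem_nhds (show y / 2 < y by linarith))
  exact h2.continuousWithinAt

lemma exp_bound_int (f : ℝ → ℝ) (hf : ContinuousOn f (Ioi 0)) (y C : ℝ) (hy : 0 < y)
    (hb : ∀ t, y ≤ t → |f t| ≤ C * Real.exp (-(Real.pi / 2 * t))) : IntegrableOn f (Ioi y) := by
  have h1 : IntegrableOn (fun t : ℝ => C * Real.exp (-(Real.pi / 2 * t))) (Ioi y) := by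
    have : IntegrableOn (fun t : ℝ => C * Real.exp (-(Real.pi / 2) * t)) (Ioi y) :=
      (exp_neg_integrableOn_Ioi y (show 0 < Real.pi / 2 by positivity)).const_mul C
    simpa only [neg_mul] using this
  refine Integrable.mono' h1 ?_ ?_
  · exact (hf.mono (Ioi_subset_Ioi hy.le)).aestronglyMeasurable measurableSet_Ioi
  · refine (ae_restrict_iff' measurableSet_Ioi).mpr (Filter.Eventually.of_forall ?_)
    intro t ht
    rw [Real.norm_eq_abs]
    exact hb t (le_of_lt ht)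

lemma ftc (f : ℝ → ℝ) (hf : ContinuousOn f (Ioi 0)) (hint : ∀ y : ℝ, 0 < y → IntegrableOn f (Ioi y))
    (y : ℝ) (hy : 0 < y) : HasDerivAt (fun u : ℝ => ∫ t in Ioi u, f t) (-f y) y := by
  have ha : 0 < y / 2 := by linarith
  have hc : ContinuousAt f y := hf.continuousAt (Ioi_mem_nhds hy)
  have hii : IntervalIntegrable f volume (y / 2) y := by
    apply ContinuousOn.intervalIntegrable
    refine hf.mono ?_
    intro t ht
    rw [uIcc_of_le (by linarith)] at ht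
    exact lt_of_lt_of_le ha ht.1
  have h1 : HasDerivAt (fun u : ℝ => ∫ t in (y / 2)..u, f t) (f y) y :=
    intervalIntegral.integral_hasDerivAt_right hii
      (hf.stronglyMeasurableAtFilter isOpen_Ioi y hy) hc
  have h2 := h1.const_sub (∫ t in Ioi (y / 2), f t)
  refine h2.congr_of_eventuallyEq ?_
  have : ∀ᶠ u in 𝓝 y, u ∈ Ioi (y / 2) := Ioi_mem_nhds (by linarith)
  filter_upwards [this] with u hu
  have := intervalIntegral.integral_Ioi_sub_Ioi (hint (y / 2) ha) (le_of_lt hu)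
  linarith

noncomputable def cD (p : ℕ × ℕ) : ℝ := chi ((p.1:ℤ) + 1) * ((p.2:ℝ) + 1) ^ 2 * sgn2 p

noncomputable def cG (p : ℕ × ℕ) : ℝ := c3 p * sgn2 p * ((p.2:ℝ) + 1)

lemma cD_bd (p : ℕ × ℕ) : |cD p| ≤ 2 * ((p.2:ℝ) + 1) ^ 2 := by
  unfold cD
  rw [abs_mul, abs_mul, PkSUMT.abs_sgn2, mul_one, abs_of_pos (show 0 < ((p.2:ℝ) + 1) ^ 2 by positivity)]
  have := PkSUMT.abs_chi ((p.1:ℤ) + 1)
  have h2 : 0 < ((p.2:ℝ) + 1) ^ 2 := by positivity
  nlinarith

lemma cG_bd (p : ℕ × ℕ) : |cG p| ≤ 2 * ((p.2:ℝ) + 1) ^ 2 := by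
  unfold cG
  rw [abs_mul, abs_mul, PkSUMT.abs_sgn2, mul_one, abs_of_pos (show 0 < ((p.2:ℝ) + 1) by positivity)]
  have h3 : |c3 p| ≤ 2 := by
    unfold c3
    split_ifs
    · norm_num
    · rw [abs_neg, abs_one]; norm_num
  obtain ⟨hM, hN⟩ := PkSUMT.one_le_X p
  have h4 : ((p.2:ℝ) + 1) ≤ ((p.2:ℝ) + 1) ^ 2 := le_self_pow₀ hN (by norm_num)
  calc |c3 p| * ((p.2:ℝ) + 1) ≤ 2 * ((p.2:ℝ) + 1) ^ 2 := by gcongr

lemma D1_eq (y : ℝ) : D1 y = Real.pi ^ 3 * SS cD y := rfl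

lemma sgp0_eq (y : ℝ) : sgp0 y = -(Real.pi ^ 2 * SS cG y) := rfl

lemma D1_cont : ContinuousOn D1 (Ioi 0) := by
  have : D1 = fun y => Real.pi ^ 3 * SS cD y := funext D1_eq
  rw [this]
  exact continuousOn_const.mul (SS_cont cD cD_bd)

lemma sgp0_cont : ContinuousOn sgp0 (Ioi 0) := by
  have : sgp0 = fun y => -(Real.pi ^ 2 * SS cG y) := funext sgp0_eq
  rw [this]
  exact (continuousOn_const.mul (SS_cont cG cG_bd)).neg

lemma D1_bd (y y0 : ℝ) (hy0 : 0 < y0) (hy : y0 ≤ y) :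
    |D1 y| ≤ (Real.pi ^ 3 * KK y0) * Real.exp (-(Real.pi / 2 * y)) := by
  rw [D1_eq, abs_mul, abs_of_pos (by positivity)]
  have := SS_bound cD cD_bd y y0 hy0 hy
  calc Real.pi ^ 3 * |SS cD y| ≤ Real.pi ^ 3 * (Real.exp (-(Real.pi / 2 * y)) * KK y0) := by gcongr
    _ = _ := by ring

lemma sgp0_bd (y y0 : ℝ) (hy0 : 0 < y0) (hy : y0 ≤ y) :
    |sgp0 y| ≤ (Real.pi ^ 2 * KK y0) * Real.exp (-(Real.pi / 2 * y)) := by
  rw [sgp0_eq, abs_neg, abs_mul, abs_of_pos (by positivity)]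
  have := SS_bound cG cG_bd y y0 hy0 hy
  calc Real.pi ^ 2 * |SS cG y| ≤ Real.pi ^ 2 * (Real.exp (-(Real.pi / 2 * y)) * KK y0) := by gcongr
    _ = _ := by ring

lemma D1_int (y : ℝ) (hy : 0 < y) : IntegrableOn D1 (Ioi y) :=
  exp_bound_int D1 D1_cont y _ hy (fun t ht => D1_bd t y hy ht)

lemma sgp0_int (y : ℝ) (hy : 0 < y) : IntegrableOn sgp0 (Ioi y) :=
  exp_bound_int sgp0 sgp0_cont y _ hy (fun t ht => sgp0_bd t y hy ht)

lemma int_bd (f : ℝ → ℝ) (C y : ℝ) (hb : ∀ t, y ≤ t → |f t| ≤ C * Real.exp (-t)) :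
    |∫ t in Ioi y, f t| ≤ C * Real.exp (-y) := by
  have h1 : IntegrableOn (fun t : ℝ => C * Real.exp (-t)) (Ioi y) := by
    have : IntegrableOn (fun t : ℝ => C * Real.exp (-1 * t)) (Ioi y) :=
      (exp_neg_integrableOn_Ioi y (show (0:ℝ) < 1 by norm_num)).const_mul C
    simpa only [neg_mul, one_mul] using this
  have h2 : ‖∫ t in Ioi y, f t‖ ≤ ∫ t in Ioi y, C * Real.exp (-t) := by
    refine norm_integral_le_of_norm_le h1 ?_
    refine (ae_restrict_iff' measurableSet_Ioi).mpr (Filter.Eventually.of_forall ?_)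
    intro t ht
    rw [Real.norm_eq_abs]
    exact hb t (le_of_lt ht)
  rw [integral_const_mul, integral_exp_neg_Ioi, Real.norm_eq_abs] at h2
  exact h2

/-- Packet NSG. -/
theorem thm : EC237.PF.G_NSG := by
  refine ⟨?_, D1_cont, ?_, ?_⟩
  · intro y hy
    constructor
    · have h := (ftc D1 D1_cont D1_int y hy).neg
      rw [neg_neg] at h
      exact h
    · have h := (ftc sgp0 sgp0_cont sgp0_int y hy)
      have h1 : HasDerivAt (fun u : ℝ => Real.pi ^ 2 / 4 * u - Real.pi / 2 * Real.log 3)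
          (Real.pi ^ 2 / 4) y := by
        have := ((hasDerivAt_id y).const_mul (Real.pi ^ 2 / 4)).sub_const
          (Real.pi / 2 * Real.log 3)
        simpa using this
      have h2 := h1.sub h
      have e : Real.pi ^ 2 / 4 - -sgp0 y = sgp y := by
        unfold sgp; ring
      rw [e] at h2
      exact h2
  · have : sgp = fun y => Real.pi ^ 2 / 4 + sgp0 y := rfl
    rw [this]
    exact continuousOn_const.add sgp0_cont
  · have hK := KK_nonneg 1
    have hpi := Real.pi_gt_three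
    have hpi4 := Real.pi_lt_four
    have hexp : ∀ t : ℝ, 1 ≤ t → Real.exp (-(Real.pi / 2 * t)) ≤ Real.exp (-t) := by
      intro t ht
      apply Real.exp_le_exp.mpr
      nlinarith
    have hD : ∀ t : ℝ, 1 ≤ t → |D1 t| ≤ (Real.pi ^ 3 * KK 1) * Real.exp (-t) := by
      intro t ht
      refine (D1_bd t 1 one_pos ht).trans ?_
      have := hexp t ht
      gcongr
    have hG : ∀ t : ℝ, 1 ≤ t → |sgp0 t| ≤ (Real.pi ^ 2 * KK 1) * Real.exp (-t) := by
      intro t ht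
      refine (sgp0_bd t 1 one_pos ht).trans ?_
      have := hexp t ht
      gcongr
    set a := Real.pi ^ 3 * KK 1 with ha
    set b := Real.pi ^ 2 * KK 1 with hb
    have ha0 : 0 ≤ a := by positivity
    have hb0 : 0 ≤ b := by positivity
    have hlog : 0 ≤ Real.log 3 := Real.log_nonneg (by norm_num)
    have hlog2 : Real.log 3 ≤ 3 := by
      have := Real.log_le_sub_one_of_pos (show (0:ℝ) < 3 by norm_num)
      linarith
    refine ⟨a + b + 100, ?_⟩
    intro y hy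
    have hey : Real.exp (-y) ≤ 1 := by
      rw [Real.exp_le_one_iff]; linarith
    have hey0 : 0 < Real.exp (-y) := Real.exp_pos _
    refine ⟨?_, ?_, ?_, ?_⟩
    · unfold n1
      rw [abs_neg]
      refine (int_bd D1 a y (fun t ht => hD t (hy.trans ht))).trans ?_
      gcongr
      linarith
    · refine (hD y hy).trans ?_
      gcongr
      linarith
    · unfold sgp
      have h1 := hG y hy
      have h2 : |sgp0 y| ≤ b := h1.trans (mul_le_of_le_one_right hb0 hey)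
      have h3 : |Real.pi ^ 2 / 4| ≤ 100 := by
        rw [abs_of_pos (by positivity)]
        nlinarith
      calc |Real.pi ^ 2 / 4 + sgp0 y| ≤ |Real.pi ^ 2 / 4| + |sgp0 y| := abs_add_le _ _
        _ ≤ a + b + 100 := by linarith
    · unfold sg
      have h1 := int_bd sgp0 b y (fun t ht => hG t (hy.trans ht))
      have h2 : |∫ t in Ioi y, sgp0 t| ≤ b := h1.trans (mul_le_of_le_one_right hb0 hey)
      have h3 : |Real.pi ^ 2 / 4 * y - Real.pi / 2 * Real.log 3| ≤ 50 * y := by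
        rw [abs_le]
        constructor
        · have h5 : Real.pi / 2 * Real.log 3 ≤ 6 := by nlinarith
          have h6 : 0 ≤ Real.pi ^ 2 / 4 * y := by positivity
          linarith
        · have h5 : 0 ≤ Real.pi / 2 * Real.log 3 := by positivity
          have h6 : Real.pi ^ 2 / 4 ≤ 50 := by nlinarith
          have h7 : Real.pi ^ 2 / 4 * y ≤ 50 * y := by gcongr
          linarith
      calc |Real.pi ^ 2 / 4 * y - Real.pi / 2 * Real.log 3 - ∫ t in Ioi y, sgp0 t|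
          ≤ |Real.pi ^ 2 / 4 * y - Real.pi / 2 * Real.log 3| + |∫ t in Ioi y, sgp0 t| :=
            abs_sub _ _
        _ ≤ 50 * y + b := by linarith
        _ ≤ (a + b + 100) * y := by nlinarith

end EC237.PF.PkNSG
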